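import Pool.Agent.Work.MP_54723a_co.PowBasic

/-!
# The labelled form (K') of the case `l = 3`: definitions  (source: helper69, msg 131087)
-/

set_option autoImplicit false

namespace FlashRainbow.K

open Classical

variable {c : ℕ → ℕ → ℕ} {V U : Finset ℕ} {r : ℕ} {f : ℕ → ℕ}

/-- `g` is the colour of an edge of `V` which leaves `v` -/
def OutCol (c : ℕ → ℕ → ℕ) (V : Finset ℕ) (v g : ℕ) : Prop := ∃ w ∈ V, v < w ∧ c v w = g

/-- labelled sets: the label `f v` is not a colour of an edge leaving `v`, and every rainbow path out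
of `v` which avoids the colour `f v` has at most `r - 1` edges -/
structure LAB (c : ℕ → ℕ → ℕ) (V : Finset ℕ) (r : ℕ) (f : ℕ → ℕ) : Prop where
  notOut : ∀ v ∈ V, ¬ OutCol c V v (f v)
  short : ∀ v ∈ V, ∀ D, RS c V v D → f v ∉ D → D.card + 1 ≤ r

/-- the vertices without an out-edge of colour `k` -/
noncomputable def W (c : ℕ → ℕ → ℕ) (V : Finset ℕ) (k : ℕ) : Finset ℕ :=
  V.filter fun v => ¬ OutCol c V v k

/-- the vertices with an out-edge of colour `k` -/
noncomputable def Tl (c : ℕ → ℕ → ℕ) (V : Finset ℕ) (k : ℕ) : Finset ℕ :=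
  V.filter fun v => OutCol c V v k

/-- good vertices of `W c V k` (for a set in `LAB r`) -/
def Good (c : ℕ → ℕ → ℕ) (V : Finset ℕ) (r k v : ℕ) : Prop :=
  ∃ g, ¬ OutCol c (W c V k) v g ∧ ∀ D, RS c (W c V k) v D → g ∉ D → D.card + 2 ≤ r

/-- the bad vertices of `W c V k` -/
noncomputable def Bad (c : ℕ → ℕ → ℕ) (V : Finset ℕ) (r k : ℕ) : Finset ℕ :=
  (W c V k).filter fun v => ¬ Good c V r k v

theorem OutCol.mono {v g : ℕ} (h : OutCol c U v g) (hUV : U ⊆ V) : OutCol c V v g := by
  obtain ⟨w, hw, h1, h2⟩ := h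
  exact ⟨w, hUV hw, h1, h2⟩

theorem RS.mono {v : ℕ} {D : Finset ℕ} (h : RS c U v D) (hUV : U ⊆ V) : RS c V v D := by
  induction h with
  | single hx => exact RS.single (hUV hx)
  | step _ hx hlt hc ih => exact RS.step ih (hUV hx) hlt hc

theorem LAB.mono (h : LAB c V r f) (hUV : U ⊆ V) : LAB c U r f :=
  ⟨fun v hv h' => h.notOut v (hUV hv) (h'.mono hUV),
    fun v hv D hD hf => h.short v (hUV hv) D (RS.mono hD hUV) hf⟩

/-- initial segments of paths with a given start -/
theorem RS.initial {v : ℕ} {D : Finset ℕ} (h : RS c V v D) :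
    ∀ t ≤ D.card, ∃ D' ⊆ D, D'.card = t ∧ RS c V v D' := by
  induction h with
  | single hx =>
    intro t ht
    refine ⟨∅, Finset.empty_subset _, ?_, RS.single hx⟩
    simp at ht ⊢
    exact ht.symm
  | @step x y D h hx hlt hc ih =>
    intro t ht
    rcases t with _ | t
    · exact ⟨∅, Finset.empty_subset _, rfl, RS.single hx⟩
    · rw [Finset.card_insert_of_notMem hc] at ht
      obtain ⟨D', hD', hcard, hRS⟩ := ih t (by omega)
      have hc' : c x y ∉ D' := fun h' => hc (hD' h')
      refine ⟨insert (c x y) D', Finset.insert_subset_insert _ hD', ?_, RS.step hRS hx hlt hc'⟩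
      rw [Finset.card_insert_of_notMem hc', hcard]

end FlashRainbow.K
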