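import Pool.Agent.Work.MP_54723a_co.K.Def
import Pool.Agent.Work.MP_54723a_co.CF.Chi
import Pool.Agent.Work.MP_54723a_co.FlashU.Grid
import Pool.Agent.Work.MP_54723a_co.Final

/-!
# The labelled form (K'): reduction of S08791  (helper74; source: helper69, msg 131087)

* `reduce`: a set of rank `R` without 3-flashes is a labelled set of `LAB R` plus at most `2 ^ R`
  further vertices;
* `card_le_rec`, `card_le_real`: the recursion for a general bound of the number of bad vertices;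
* `s08791_of_K`: (K') implies the frozen statement.
-/

set_option autoImplicit false

namespace FlashRainbow.K

open Classical

variable {c : ℕ → ℕ → ℕ} {V U : Finset ℕ} {r R : ℕ} {f : ℕ → ℕ} {lev : ℕ → ℕ → ℕ}

theorem RS.card_le {v : ℕ} {D : Finset ℕ} (hR : Rk c V R) (h : RS c V v D) : D.card ≤ R := by
  obtain ⟨y, hy⟩ := h.join (Finset.Subset.refl V) ∅ (RP.single h.mem)
    (Finset.disjoint_empty_right _)
  rw [Finset.empty_union] at hy
  exact hR y D hy

/-- (1): all but `2 ^ R` vertices have a label -/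
theorem reduce (hL : Lev c V 3 lev) (hR : Rk c V R) :
    ∃ U ⊆ V, ∃ f, LAB c U R f ∧ V.card ≤ U.card + 2 ^ R := by
  set B := V.filter fun v => ∀ g, OutCol c V v g ∨ ∃ D, RS c V v D ∧ g ∉ D ∧ R ≤ D.card with hBdef
  have hBV : B ⊆ V := Finset.filter_subset _ _
  have hout : ∀ u ∈ B, ∀ v ∈ B, u < v → OutCol c V v (c u v) := by
    intro u hu v hv huv
    rcases (Finset.mem_filter.mp hv).2 (c u v) with h | ⟨D, hD, hc, hDR⟩
    · exact h
    · have h1 := RS.card_le hR (RS.step hD (hBV hu) huv hc)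
      rw [Finset.card_insert_of_notMem hc] at h1
      omega
  have hB : B.card ≤ 2 ^ R := by
    have h := CF.card_flash_in_le (c := c) (T := B) (Θ := ∅) (l := 3) (r := R) (by norm_num)
      (hL.mono hBV) (fun y D hD => hR y D (hD.mono hBV)) (by
        intro a ha b hb d hd hab hbd hcc
        exfalso
        obtain ⟨w, hw, hdw, hcw⟩ := hout b hb d hd hbd
        have h1 := hL.up a (hBV ha) b (hBV hb) hab
        have h2 := hL.up b (hBV hb) d (hBV hd) hbd
        have h3 := hL.up d (hBV hd) w hw hdw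
        have h4 := hL.lt (c b d) w hw
        rw [hcc] at h1
        rw [hcw] at h3
        omega)
    simpa using h
  have hex : ∀ v ∈ V \ B, ∃ g, ¬ OutCol c V v g ∧ ∀ D, RS c V v D → g ∉ D → D.card + 1 ≤ R := by
    intro v hv
    obtain ⟨hvV, hvB⟩ := Finset.mem_sdiff.mp hv
    have h1 : ¬ ∀ g, OutCol c V v g ∨ ∃ D, RS c V v D ∧ g ∉ D ∧ R ≤ D.card := fun h =>
      hvB (Finset.mem_filter.mpr ⟨hvV, h⟩)
    push Not at h1
    obtain ⟨g, h2, h3⟩ := h1
    exact ⟨g, h2, fun D hD hg => h3 D hD hg⟩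
  choose! f hf using hex
  refine ⟨V \ B, Finset.sdiff_subset, f, ⟨?_, ?_⟩, ?_⟩
  · intro v hv h
    exact (hf v hv).1 (h.mono Finset.sdiff_subset)
  · intro v hv D hD hg
    exact (hf v hv).2 D (RS.mono hD Finset.sdiff_subset) hg
  · have h1 := Finset.card_sdiff_add_card_eq_card hBV
    omega

/-- the statement of the step (2), (3) -/
def Step (c : ℕ → ℕ → ℕ) (V : Finset ℕ) : Prop :=
  ∀ U ⊆ V, ∀ r f, LAB c U (r + 1) f → ∀ N : ℕ,
    (∀ U' ⊆ U, ∀ f', LAB c U' r f' → U'.card ≤ N) → ∀ k, U.card ≤ 3 * N + (Bad c U (r + 1) k).card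

/-- the solution of the recursion -/
def NB (β : ℕ → ℕ) : ℕ → ℕ
  | 0 => 0
  | r + 1 => 3 * NB β r + β r

theorem LAB.zero (h : LAB c V 0 f) : V = ∅ := by
  rw [Finset.eq_empty_iff_forall_notMem]
  intro v hv
  have := h.short v hv ∅ (RS.single hv) (Finset.notMem_empty _)
  omega

/-- the recursion, for a bound `β` of the number of bad vertices -/
theorem card_le_rec (hS : Step c V) (β : ℕ → ℕ) :
    ∀ r, (∀ i < r, ∀ U ⊆ V, ∀ f, LAB c U (i + 1) f → ∃ k, (Bad c U (i + 1) k).card ≤ β i) →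
      ∀ U ⊆ V, ∀ f, LAB c U r f → U.card ≤ NB β r := by
  intro r
  induction r with
  | zero =>
    intro _ U _ f hf
    rw [LAB.zero hf]
    exact Nat.zero_le _
  | succ r ih =>
    intro hK U hU f hf
    obtain ⟨k, hk⟩ := hK r (Nat.lt_succ_self r) U hU f hf
    have h1 := hS U hU r f hf (NB β r)
      (fun U' hU' f' hf' => ih (fun i hi => hK i (by omega)) U' (hU'.trans hU) f' hf') k
    show U.card ≤ 3 * NB β r + β r
    omega

/-- real form with a proportional part -/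
noncomputable def NR (ε β : ℕ → ℝ) : ℕ → ℝ
  | 0 => 0
  | r + 1 => (3 * NR ε β r + β r) / (1 - ε r)

theorem card_le_real (hS : Step c V) (ε β : ℕ → ℝ) :
    ∀ r, (∀ i < r, ε i < 1) →
      (∀ i < r, ∀ U ⊆ V, ∀ f, LAB c U (i + 1) f →
        ∃ k, ((Bad c U (i + 1) k).card : ℝ) ≤ ε i * U.card + β i) →
      ∀ U ⊆ V, ∀ f, LAB c U r f → (U.card : ℝ) ≤ NR ε β r := by
  intro r
  induction r with
  | zero =>
    intro _ _ U _ f hf
    rw [LAB.zero hf]
    simp [NR]
  | succ r ih =>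
    intro hε hK U hU f hf
    obtain ⟨k, hk⟩ := hK r (Nat.lt_succ_self r) U hU f hf
    have hNR := ih (fun i hi => hε i (by omega)) (fun i hi => hK i (by omega))
    have h0 : (0 : ℝ) ≤ NR ε β r := by
      have h1 := hNR ∅ (Finset.empty_subset _) f
        ⟨fun v hv => absurd hv (Finset.notMem_empty _), fun v hv => absurd hv (Finset.notMem_empty _)⟩
      simpa using h1
    have h1 := hS U hU r f hf (⌊NR ε β r⌋₊)
      (fun U' hU' f' hf' => Nat.le_floor (hNR U' (hU'.trans hU) f' hf')) k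
    have h2 : (U.card : ℝ) ≤ 3 * NR ε β r + (Bad c U (r + 1) k).card := by
      have h3 : (U.card : ℝ) ≤ 3 * (⌊NR ε β r⌋₊ : ℝ) + (Bad c U (r + 1) k).card := by
        exact_mod_cast h1
      have h4 := Nat.floor_le h0
      linarith
    show (U.card : ℝ) ≤ (3 * NR ε β r + β r) / (1 - ε r)
    rw [le_div_iff₀ (by have := hε r (Nat.lt_succ_self r); linarith)]
    linarith

theorem NB_two_pow (r : ℕ) : NB (fun i => 2 ^ i) r + 2 ^ r = 3 ^ r := by
  induction r with
  | zero => rfl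
  | succ r ih =>
    show 3 * NB (fun i => 2 ^ i) r + 2 ^ r + 2 ^ (r + 1) = 3 ^ (r + 1)
    rw [pow_succ, pow_succ, ← ih]
    ring

/-- **(K') for the subsets of `V` gives the sharp bound** -/
theorem card_le_three_pow (hS : Step c V) (hL : Lev c V 3 lev) (hR : Rk c V R)
    (hK : ∀ i < R, ∀ U ⊆ V, ∀ f, LAB c U (i + 1) f → ∃ k, (Bad c U (i + 1) k).card ≤ 2 ^ i) :
    V.card ≤ 3 ^ R := by
  obtain ⟨U, hU, f, hf, hcard⟩ := reduce hL hR
  have h1 := card_le_rec hS (fun i => 2 ^ i) R hK U hU f hf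
  have h2 := NB_two_pow R
  omega

/-- from sets of natural numbers to colourings of the pairs of `Fin n` -/
theorem fin_of_card {l k N : ℕ}
    (hN : ∀ (c : ℕ → ℕ → ℕ) (lev : ℕ → ℕ → ℕ) (V : Finset ℕ), Lev c V l lev → Rk c V (k - 1) →
      V.card ≤ N) {n : ℕ} (hn : N < n) (c : Fin n → Fin n → ℕ) :
    (∃ x : Fin (l + 1) → Fin n, StrictMono x ∧
      ∃ col : ℕ, ∀ i : Fin l, c (x i.castSucc) (x i.succ) = col) ∨
    (∃ y : Fin (k + 1) → Fin n, StrictMono y ∧
      Function.Injective (fun i : Fin k => c (y i.castSucc) (y i.succ))) := by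
  by_contra hcon
  rw [not_or] at hcon
  obtain ⟨hflash, hrain⟩ := hcon
  set C : ℕ → ℕ → ℕ := fun a b => if h : a < n ∧ b < n then c ⟨a, h.1⟩ ⟨b, h.2⟩ else 0 with hC
  have hCeq : ∀ (a b : ℕ) (ha : a < n) (hb : b < n), C a b = c ⟨a, ha⟩ ⟨b, hb⟩ := by
    intro a b ha hb
    rw [hC]
    simp only [ha, hb, and_self, dite_true]
  set V := Finset.range n with hV
  have hnoflash : ∀ γ v, ¬ MP C V γ v l := by
    intro γ v hmp
    obtain ⟨y, _, h1, h2, h3⟩ := hmp.toFun
    have h1' : ∀ i ≤ l, y i < n := fun i hi => Finset.mem_range.mp (h1 i hi)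
    apply hflash
    refine ⟨_, strictMono_of_lt_succ y h1' h2, γ, fun i => ?_⟩
    have := h3 i i.2
    rw [hCeq _ _ (h1' i (by omega)) (h1' (i + 1) (by omega))] at this
    simpa using this
  have hR : ∀ x D, RP C V x D → D.card ≤ k - 1 := by
    intro x D hD
    by_contra hlt
    obtain ⟨D', _, hcard, hD'⟩ := hD.suffix k (by omega)
    obtain ⟨y, _, h1, h2, _, h4⟩ := hD'.toFun
    rw [hcard] at h1 h2 h4
    have h1' : ∀ i ≤ k, y i < n := fun i hi => Finset.mem_range.mp (h1 i hi)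
    apply hrain
    refine ⟨_, strictMono_of_lt_succ y h1' h2, ?_⟩
    intro i j hij
    apply Fin.ext
    apply h4 i i.2 j j.2
    rw [hCeq _ _ (h1' i (by omega)) (h1' (i + 1) (by omega)),
      hCeq _ _ (h1' j (by omega)) (h1' (j + 1) (by omega))]
    simpa using hij
  set lev : ℕ → ℕ → ℕ := fun γ v => Nat.findGreatest (fun j => MP C V γ v j) l with hlev
  have hspec : ∀ γ, ∀ v ∈ V, MP C V γ v (lev γ v) := fun γ v hv =>
    Nat.findGreatest_spec (P := fun j => MP C V γ v j) (Nat.zero_le l) (MP.single hv)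
  have hlevlt : ∀ γ, ∀ v ∈ V, lev γ v < l := by
    intro γ v hv
    refine lt_of_le_of_ne (Nat.findGreatest_le _) ?_
    intro heq
    have := hspec γ v hv
    rw [heq] at this
    exact hnoflash γ v this
  have hL : Lev C V l lev := by
    refine ⟨hlevlt, ?_⟩
    intro u hu v hv huv
    have h1 := MP.step (hspec (C u v) u hu) hv huv rfl
    exact Nat.le_findGreatest (hlevlt (C u v) u hu) h1
  have h1 := hN C lev V hL hR
  rw [hV, Finset.card_range] at h1
  omega

/-- the sharp bound for sets gives the frozen statement -/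
theorem s08791_of_card
    (h : ∀ (c : ℕ → ℕ → ℕ) (lev : ℕ → ℕ → ℕ) (V : Finset ℕ) (R : ℕ), Lev c V 3 lev → Rk c V R →
      V.card ≤ 3 ^ R) :
    ∀ k : ℕ, 1 ≤ k →
      (∃ c : Fin (3 ^ (k - 1)) → Fin (3 ^ (k - 1)) → ℕ,
          (¬ ∃ x : Fin (3 + 1) → Fin (3 ^ (k - 1)), StrictMono x ∧
              ∃ col : ℕ, ∀ i : Fin 3, c (x i.castSucc) (x i.succ) = col) ∧
          (¬ ∃ y : Fin (k + 1) → Fin (3 ^ (k - 1)), StrictMono y ∧
              Function.Injective (fun i : Fin k => c (y i.castSucc) (y i.succ)))) ∧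
      (∀ c : Fin (3 ^ (k - 1) + 1) → Fin (3 ^ (k - 1) + 1) → ℕ,
          (∃ x : Fin (3 + 1) → Fin (3 ^ (k - 1) + 1), StrictMono x ∧
              ∃ col : ℕ, ∀ i : Fin 3, c (x i.castSucc) (x i.succ) = col) ∨
          (∃ y : Fin (k + 1) → Fin (3 ^ (k - 1) + 1), StrictMono y ∧
              Function.Injective (fun i : Fin k => c (y i.castSucc) (y i.succ)))) := by
  intro k hk
  obtain ⟨R, rfl⟩ : ∃ R, k = R + 1 := ⟨k - 1, by omega⟩
  refine ⟨FlashU.grid_lower 3 R (by norm_num), fun c => ?_⟩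
  exact fin_of_card (l := 3) (k := R + 1) (N := 3 ^ R)
    (fun c lev V hL hR => h c lev V R hL hR) (Nat.lt_succ_self _) c

/-- **(K') implies S08791** -/
theorem s08791_of_K
    (hS : ∀ (c : ℕ → ℕ → ℕ) (lev : ℕ → ℕ → ℕ) (V : Finset ℕ), Lev c V 3 lev → Step c V)
    (hK : ∀ (c : ℕ → ℕ → ℕ) (lev : ℕ → ℕ → ℕ) (V : Finset ℕ) (r : ℕ) (f : ℕ → ℕ),
      Lev c V 3 lev → LAB c V (r + 1) f → ∃ k, (Bad c V (r + 1) k).card ≤ 2 ^ r) :
    ∀ k : ℕ, 1 ≤ k →
      (∃ c : Fin (3 ^ (k - 1)) → Fin (3 ^ (k - 1)) → ℕ,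
          (¬ ∃ x : Fin (3 + 1) → Fin (3 ^ (k - 1)), StrictMono x ∧
              ∃ col : ℕ, ∀ i : Fin 3, c (x i.castSucc) (x i.succ) = col) ∧
          (¬ ∃ y : Fin (k + 1) → Fin (3 ^ (k - 1)), StrictMono y ∧
              Function.Injective (fun i : Fin k => c (y i.castSucc) (y i.succ)))) ∧
      (∀ c : Fin (3 ^ (k - 1) + 1) → Fin (3 ^ (k - 1) + 1) → ℕ,
          (∃ x : Fin (3 + 1) → Fin (3 ^ (k - 1) + 1), StrictMono x ∧
              ∃ col : ℕ, ∀ i : Fin 3, c (x i.castSucc) (x i.succ) = col) ∨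
          (∃ y : Fin (k + 1) → Fin (3 ^ (k - 1) + 1), StrictMono y ∧
              Function.Injective (fun i : Fin k => c (y i.castSucc) (y i.succ)))) :=
  s08791_of_card fun c lev V _R hL hR =>
    card_le_three_pow (hS c lev V hL) hL hR
      (fun i _ U hU f hf => hK c lev U i f (hL.mono hU) hf)

end FlashRainbow.K
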