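import Pool.Agent.Work.MP_54723a_co.K.Lab
import Pool.Agent.Work.MP_54723a_co.K.Reduce

/-!
# The labelled form: only extremal sets matter  (helper74)

The statement about the bad vertices is needed only for a smallest counterexample (`Smallest`), resp.
for the largest labelled subsets of a given set (`card_le_extremal`).
-/

set_option autoImplicit false

namespace FlashRainbow.K

open Classical

variable {c : ℕ → ℕ → ℕ} {V U : Finset ℕ} {r R : ℕ} {f : ℕ → ℕ} {lev : ℕ → ℕ → ℕ}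

/-- `U` is in `LAB (i + 1)`, has exactly one vertex more than the bound, and all its subsets satisfy
the bounds for smaller ranks -/
def Smallest (c : ℕ → ℕ → ℕ) (β : ℕ → ℕ) (U : Finset ℕ) (i : ℕ) : Prop :=
  (∃ f, LAB c U (i + 1) f) ∧ U.card = NB β (i + 1) + 1 ∧
    ∀ j ≤ i, ∀ U' ⊆ U, ∀ f', LAB c U' j f' → U'.card ≤ NB β j

/-- the recursion from the smallest counterexamples -/
theorem card_le_smallest (hL : Lev c V 3 lev) (β : ℕ → ℕ) :
    ∀ r, (∀ i < r, ∀ U ⊆ V, Smallest c β U i → ∃ k, (Bad c U (i + 1) k).card ≤ β i) →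
      ∀ U ⊆ V, ∀ f, LAB c U r f → U.card ≤ NB β r := by
  intro r
  induction r using Nat.strong_induction_on with
  | _ r ih =>
    intro hK U hU f hf
    rcases r with _ | r
    · rw [LAB.zero hf]
      exact Nat.zero_le _
    · by_contra hlt
      push Not at hlt
      obtain ⟨U₁, hU₁, hcard⟩ := Finset.exists_subset_card_eq (show NB β (r + 1) + 1 ≤ U.card from hlt)
      have hU₁V := hU₁.trans hU
      have hf₁ : LAB c U₁ (r + 1) f := hf.mono hU₁
      have hall : ∀ j ≤ r, ∀ U' ⊆ U₁, ∀ f', LAB c U' j f' → U'.card ≤ NB β j := by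
        intro j hj U' hU' f' hf'
        exact ih j (by omega) (fun i hi => hK i (by omega)) U' (hU'.trans hU₁V) f' hf'
      obtain ⟨k, hk⟩ := hK r (Nat.lt_succ_self r) U₁ hU₁V ⟨⟨f, hf₁⟩, hcard, hall⟩
      have h1 := lab_step (hL.mono hU₁V) hf₁ (NB β r) (hall r le_rfl) k
      have h2 : NB β (r + 1) = 3 * NB β r + β r := rfl
      omega

/-- the real recursion, only for the largest labelled subsets of `V` -/
theorem card_le_extremal (hL : Lev c V 3 lev) (ε β : ℕ → ℝ) :
    ∀ r, (∀ i < r, ε i < 1) →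
      (∀ i < r, ∀ U ⊆ V, ∀ f, LAB c U (i + 1) f →
        (∀ U' ⊆ V, ∀ f', LAB c U' (i + 1) f' → U'.card ≤ U.card) →
        ∃ k, ((Bad c U (i + 1) k).card : ℝ) ≤ ε i * U.card + β i) →
      ∀ U ⊆ V, ∀ f, LAB c U r f → (U.card : ℝ) ≤ NR ε β r := by
  intro r
  induction r with
  | zero =>
    intro _ _ U _ f hf
    rw [LAB.zero hf]
    simp [NR]
  | succ r ih =>
    intro hε hK U hU f hf
    have hNR := ih (fun i hi => hε i (by omega)) (fun i hi => hK i (by omega))
    have h0 : (0 : ℝ) ≤ NR ε β r := by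
      have h1 := hNR ∅ (Finset.empty_subset _) f
        ⟨fun v hv => absurd hv (Finset.notMem_empty _), fun v hv => absurd hv (Finset.notMem_empty _)⟩
      simpa using h1
    -- a largest labelled subset
    obtain ⟨U₀, hU₀, hmax⟩ := Finset.exists_max_image
      (V.powerset.filter fun U' => ∃ f', LAB c U' (r + 1) f') Finset.card
      ⟨U, Finset.mem_filter.mpr ⟨Finset.mem_powerset.mpr hU, f, hf⟩⟩
    obtain ⟨hU₀V, f₀, hf₀⟩ := Finset.mem_filter.mp hU₀
    rw [Finset.mem_powerset] at hU₀V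
    have hmax' : ∀ U' ⊆ V, ∀ f', LAB c U' (r + 1) f' → U'.card ≤ U₀.card := by
      intro U' hU' f' hf'
      exact hmax U' (Finset.mem_filter.mpr ⟨Finset.mem_powerset.mpr hU', f', hf'⟩)
    obtain ⟨k, hk⟩ := hK r (Nat.lt_succ_self r) U₀ hU₀V f₀ hf₀ hmax'
    have h1 := lab_step (hL.mono hU₀V) hf₀ (⌊NR ε β r⌋₊)
      (fun U' hU' f' hf' => Nat.le_floor (hNR U' (hU'.trans hU₀V) f' hf')) k
    have h2 : (U₀.card : ℝ) ≤ 3 * NR ε β r + (Bad c U₀ (r + 1) k).card := by
      have h3 : (U₀.card : ℝ) ≤ 3 * (⌊NR ε β r⌋₊ : ℝ) + (Bad c U₀ (r + 1) k).card := by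
        exact_mod_cast h1
      have h4 := Nat.floor_le h0
      linarith
    have h5 : (U.card : ℝ) ≤ U₀.card := by exact_mod_cast hmax' U hU f hf
    refine h5.trans ?_
    show (U₀.card : ℝ) ≤ (3 * NR ε β r + β r) / (1 - ε r)
    rw [le_div_iff₀ (by have := hε r (Nat.lt_succ_self r); linarith)]
    linarith

/-- the sharp bound from the smallest counterexamples -/
theorem card_le_three_pow' (hL : Lev c V 3 lev) (hR : Rk c V R)
    (hK : ∀ i < R, ∀ U ⊆ V, Smallest c (fun i => 2 ^ i) U i →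
      ∃ k, (Bad c U (i + 1) k).card ≤ 2 ^ i) :
    V.card ≤ 3 ^ R := by
  obtain ⟨U, hU, f, hf, hcard⟩ := reduce hL hR
  have h1 := card_le_smallest hL (fun i => 2 ^ i) R hK U hU f hf
  have h2 := NB_two_pow R
  omega

/-- **(K') for the smallest counterexamples implies S08791** -/
theorem s08791_of_K'
    (hK : ∀ (c : ℕ → ℕ → ℕ) (lev : ℕ → ℕ → ℕ) (V : Finset ℕ) (r : ℕ),
      Lev c V 3 lev → Smallest c (fun i => 2 ^ i) V r → ∃ k, (Bad c V (r + 1) k).card ≤ 2 ^ r) :
    ∀ k : ℕ, 1 ≤ k →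
      (∃ c : Fin (3 ^ (k - 1)) → Fin (3 ^ (k - 1)) → ℕ,
          (¬ ∃ x : Fin (3 + 1) → Fin (3 ^ (k - 1)), StrictMono x ∧
              ∃ col : ℕ, ∀ i : Fin 3, c (x i.castSucc) (x i.succ) = col) ∧
          (¬ ∃ y : Fin (k + 1) → Fin (3 ^ (k - 1)), StrictMono y ∧
              Function.Injective (fun i : Fin k => c (y i.castSucc) (y i.succ)))) ∧
      (∀ c : Fin (3 ^ (k - 1) + 1) → Fin (3 ^ (k - 1) + 1) → ℕ,
          (∃ x : Fin (3 + 1) → Fin (3 ^ (k - 1) + 1), StrictMono x ∧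
              ∃ col : ℕ, ∀ i : Fin 3, c (x i.castSucc) (x i.succ) = col) ∨
          (∃ y : Fin (k + 1) → Fin (3 ^ (k - 1) + 1), StrictMono y ∧
              Function.Injective (fun i : Fin k => c (y i.castSucc) (y i.succ)))) :=
  s08791_of_card fun c lev _V _R hL hR =>
    card_le_three_pow' hL hR (fun i _ U hU hs => hK c lev U i (hL.mono hU) hs)

end FlashRainbow.K
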