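import Pool.Agent.Work.MP_54723a_co.K.Dense

/-!
# The labelled form: the condition (K41) of helper41 on `W c V k`  (helper74)

`W c V k` = the vertices of `V` without an out-edge of colour `k`.  (K41): a smallest counterexample
in `LAB (i + 1)` has a colour `k` with `(W c V k).card ≤ 3 ^ i`.
-/

set_option autoImplicit false

namespace FlashRainbow.K

open Classical

variable {c : ℕ → ℕ → ℕ} {V U : Finset ℕ} {r R : ℕ} {f : ℕ → ℕ} {lev : ℕ → ℕ → ℕ}

theorem card_split (V : Finset ℕ) (k : ℕ) : (Tl c V k).card + (W c V k).card = V.card :=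
  Finset.card_filter_add_card_filter_not _

/-- the recursion `N (r + 1) = 2 N r + w r` -/
def NW (w : ℕ → ℕ) : ℕ → ℕ
  | 0 => 0
  | r + 1 => 2 * NW w r + w r

theorem NW_three_pow (r : ℕ) : NW (fun i => 3 ^ i) r + 2 ^ r = 3 ^ r := by
  induction r with
  | zero => rfl
  | succ r ih =>
    show 2 * NW (fun i => 3 ^ i) r + 3 ^ r + 2 ^ (r + 1) = 3 ^ (r + 1)
    rw [pow_succ, pow_succ]
    omega

/-- `U` is in `LAB (i + 1)`, has exactly one vertex more than the bound, and all its subsets satisfy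
the bounds for smaller ranks -/
def SmallestW (c : ℕ → ℕ → ℕ) (w : ℕ → ℕ) (U : Finset ℕ) (i : ℕ) : Prop :=
  (∃ f, LAB c U (i + 1) f) ∧ U.card = NW w (i + 1) + 1 ∧
    ∀ j ≤ i, ∀ U' ⊆ U, ∀ f', LAB c U' j f' → U'.card ≤ NW w j

/-- the recursion from the smallest counterexamples, bound on `W` -/
theorem card_le_smallestW (hL : Lev c V 3 lev) (w : ℕ → ℕ) :
    ∀ r, (∀ i < r, ∀ U ⊆ V, SmallestW c w U i → ∃ k, (W c U k).card ≤ w i) →
      ∀ U ⊆ V, ∀ f, LAB c U r f → U.card ≤ NW w r := by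
  intro r
  induction r using Nat.strong_induction_on with
  | _ r ih =>
    intro hK U hU f hf
    rcases r with _ | r
    · rw [LAB.zero hf]
      exact Nat.zero_le _
    · by_contra hlt
      push Not at hlt
      obtain ⟨U₁, hU₁, hcard⟩ := Finset.exists_subset_card_eq (show NW w (r + 1) + 1 ≤ U.card from hlt)
      have hU₁V := hU₁.trans hU
      have hf₁ : LAB c U₁ (r + 1) f := hf.mono hU₁
      have hall : ∀ j ≤ r, ∀ U' ⊆ U₁, ∀ f', LAB c U' j f' → U'.card ≤ NW w j := by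
        intro j hj U' hU' f' hf'
        exact ih j (by omega) (fun i hi => hK i (by omega)) U' (hU'.trans hU₁V) f' hf'
      obtain ⟨k, hk⟩ := hK r (Nat.lt_succ_self r) U₁ hU₁V ⟨⟨f, hf₁⟩, hcard, hall⟩
      have h1 := card_tail (hL.mono hU₁V) hf₁ (NW w r) (hall r le_rfl) k
      have h2 : NW w (r + 1) = 2 * NW w r + w r := rfl
      have h3 := card_split (c := c) U₁ k
      omega

/-- **(K41) for the smallest counterexamples in `V` gives the sharp bound** -/
theorem card_le_of_K41 (hL : Lev c V 3 lev) (hR : Rk c V R)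
    (hK : ∀ i < R, ∀ U ⊆ V, SmallestW c (fun i => 3 ^ i) U i → ∃ k, (W c U k).card ≤ 3 ^ i) :
    V.card ≤ 3 ^ R := by
  obtain ⟨U, hU, f, hf, hcard⟩ := reduce hL hR
  have h1 := card_le_smallestW hL (fun i => 3 ^ i) R hK U hU f hf
  have h2 := NW_three_pow R
  omega

/-- **(K41) implies S08791** -/
theorem s08791_of_K41
    (hK : ∀ (c : ℕ → ℕ → ℕ) (lev : ℕ → ℕ → ℕ) (V : Finset ℕ) (r : ℕ),
      Lev c V 3 lev → SmallestW c (fun i => 3 ^ i) V r → ∃ k, (W c V k).card ≤ 3 ^ r) :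
    ∀ k : ℕ, 1 ≤ k →
      (∃ c : Fin (3 ^ (k - 1)) → Fin (3 ^ (k - 1)) → ℕ,
          (¬ ∃ x : Fin (3 + 1) → Fin (3 ^ (k - 1)), StrictMono x ∧
              ∃ col : ℕ, ∀ i : Fin 3, c (x i.castSucc) (x i.succ) = col) ∧
          (¬ ∃ y : Fin (k + 1) → Fin (3 ^ (k - 1)), StrictMono y ∧
              Function.Injective (fun i : Fin k => c (y i.castSucc) (y i.succ)))) ∧
      (∀ c : Fin (3 ^ (k - 1) + 1) → Fin (3 ^ (k - 1) + 1) → ℕ,
          (∃ x : Fin (3 + 1) → Fin (3 ^ (k - 1) + 1), StrictMono x ∧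
              ∃ col : ℕ, ∀ i : Fin 3, c (x i.castSucc) (x i.succ) = col) ∨
          (∃ y : Fin (k + 1) → Fin (3 ^ (k - 1) + 1), StrictMono y ∧
              Function.Injective (fun i : Fin k => c (y i.castSucc) (y i.succ)))) :=
  s08791_of_card fun c lev _V _R hL hR =>
    card_le_of_K41 hL hR (fun i _ U hU hs => hK c lev U i (hL.mono hU) hs)

/-- the real recursion `x (r + 1) = (3 + ε r) * x r + β r` -/
noncomputable def NRW (ε β : ℕ → ℝ) : ℕ → ℝ
  | 0 => 0
  | r + 1 => (3 + ε r) * NRW ε β r + β r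

/-- the real recursion, only for the largest labelled subsets of `V`; `x` is any bound for the
labelled subsets of the smaller rank -/
theorem card_le_extremalW (hL : Lev c V 3 lev) (ε β : ℕ → ℝ) :
    ∀ r, (∀ i < r, 0 ≤ ε i) →
      (∀ i < r, ∀ U ⊆ V, ∀ f, LAB c U (i + 1) f →
        (∀ U' ⊆ V, ∀ f', LAB c U' (i + 1) f' → U'.card ≤ U.card) →
        ∀ N : ℕ, (∀ U' ⊆ V, ∀ f', LAB c U' i f' → U'.card ≤ N) →
          ∃ k, ((W c U k).card : ℝ) ≤ (1 + ε i) * N + β i) →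
      ∀ U ⊆ V, ∀ f, LAB c U r f → (U.card : ℝ) ≤ NRW ε β r := by
  intro r
  induction r with
  | zero =>
    intro _ _ U _ f hf
    rw [LAB.zero hf]
    simp [NRW]
  | succ r ih =>
    intro hε hK U hU f hf
    have hNR := ih (fun i hi => hε i (by omega)) (fun i hi => hK i (by omega))
    have h0 : (0 : ℝ) ≤ NRW ε β r := by
      have h1 := hNR ∅ (Finset.empty_subset _) f
        ⟨fun v hv => absurd hv (Finset.notMem_empty _), fun v hv => absurd hv (Finset.notMem_empty _)⟩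
      simpa using h1
    obtain ⟨U₀, hU₀, hmax⟩ := Finset.exists_max_image
      (V.powerset.filter fun U' => ∃ f', LAB c U' (r + 1) f') Finset.card
      ⟨U, Finset.mem_filter.mpr ⟨Finset.mem_powerset.mpr hU, f, hf⟩⟩
    obtain ⟨hU₀V, f₀, hf₀⟩ := Finset.mem_filter.mp hU₀
    rw [Finset.mem_powerset] at hU₀V
    have hmax' : ∀ U' ⊆ V, ∀ f', LAB c U' (r + 1) f' → U'.card ≤ U₀.card := by
      intro U' hU' f' hf'
      exact hmax U' (Finset.mem_filter.mpr ⟨Finset.mem_powerset.mpr hU', f', hf'⟩)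
    have hfl : ∀ U' ⊆ V, ∀ f', LAB c U' r f' → U'.card ≤ ⌊NRW ε β r⌋₊ :=
      fun U' hU' f' hf' => Nat.le_floor (hNR U' hU' f' hf')
    obtain ⟨k, hk⟩ := hK r (Nat.lt_succ_self r) U₀ hU₀V f₀ hf₀ hmax' _ hfl
    have h1 := card_tail (hL.mono hU₀V) hf₀ (⌊NRW ε β r⌋₊)
      (fun U' hU' f' hf' => hfl U' (hU'.trans hU₀V) f' hf') k
    have h2 := card_split (c := c) U₀ k
    have h3 : (U₀.card : ℝ) ≤ 2 * (⌊NRW ε β r⌋₊ : ℝ) + (W c U₀ k).card := by
      have : U₀.card ≤ 2 * ⌊NRW ε β r⌋₊ + (W c U₀ k).card := by omega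
      exact_mod_cast this
    have h4 := Nat.floor_le h0
    have h5 : (U.card : ℝ) ≤ U₀.card := by exact_mod_cast hmax' U hU f hf
    have h6 := hε r (Nat.lt_succ_self r)
    show (U.card : ℝ) ≤ (3 + ε r) * NRW ε β r + β r
    have h7 : (1 + ε r) * (⌊NRW ε β r⌋₊ : ℝ) ≤ (1 + ε r) * NRW ε β r :=
      mul_le_mul_of_nonneg_left h4 (by linarith)
    linarith

/-- closed form of the recursion: if `β i ≤ b * 3 ^ i * δ i` then the bound is at most
`b * 3 ^ r * (∑ δ) * ∏ (1 + ε / 3)` -/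
theorem NRW_le (ε β δ : ℕ → ℝ) (b : ℝ) (hb : 0 ≤ b) (hε : ∀ i, 0 ≤ ε i) (hδ : ∀ i, 0 ≤ δ i)
    (hβ : ∀ i, β i ≤ b * 3 ^ i * δ i) (r : ℕ) :
    NRW ε β r ≤ b * 3 ^ r * (∑ i ∈ Finset.range r, δ i) * ∏ i ∈ Finset.range r, (1 + ε i / 3) := by
  induction r with
  | zero => simp [NRW]
  | succ r ih =>
    rw [Finset.sum_range_succ, Finset.prod_range_succ]
    set S := ∑ i ∈ Finset.range r, δ i with hS
    set P := ∏ i ∈ Finset.range r, (1 + ε i / 3) with hP
    have hP1 : 1 ≤ P := by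
      rw [hP]
      refine Finset.prod_induction (fun i => 1 + ε i / 3) (fun x => (1 : ℝ) ≤ x) ?_ le_rfl ?_
      · intro x y hx hy
        nlinarith
      · intro i _
        have := hε i
        show (1 : ℝ) ≤ 1 + ε i / 3
        linarith
    have hS0 : 0 ≤ S := Finset.sum_nonneg fun i _ => hδ i
    have h1 := hε r
    have h2 := hδ r
    have h3 := hβ r
    have hb3 : 0 ≤ b * 3 ^ r := by positivity
    show (3 + ε r) * NRW ε β r + β r ≤ b * 3 ^ (r + 1) * (S + δ r) * (P * (1 + ε r / 3))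
    have h4 : (3 + ε r) * NRW ε β r ≤ (3 + ε r) * (b * 3 ^ r * S * P) :=
      mul_le_mul_of_nonneg_left ih (by linarith)
    have h5 : b * 3 ^ r * δ r ≤ b * 3 ^ r * δ r * 3 * (P * (1 + ε r / 3)) := by
      have h6 : 0 ≤ b * 3 ^ r * δ r := by positivity
      have h7 : 1 ≤ 3 * (P * (1 + ε r / 3)) := by nlinarith
      nlinarith
    have h8 : b * 3 ^ (r + 1) * (S + δ r) * (P * (1 + ε r / 3)) =
        (3 + ε r) * (b * 3 ^ r * S * P) + b * 3 ^ r * δ r * 3 * (P * (1 + ε r / 3)) := by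
      rw [pow_succ]
      ring
    rw [h8]
    linarith

end FlashRainbow.K
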