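import Pool.Agent.Work.MP_54723a_co.K.Def

/-!
# The labelled form (K'): the exact recursion (steps (2), (3) of helper69, msg 131087)

* `lab_tail` : for every colour `k` the vertices with an out-edge of colour `k` form two sets in
  `LAB r`;
* `lab_good` : the good vertices of `W c V k` are in `LAB r`;
* `lab_step` : `|V| ≤ 3 N + |Bad k|` for every colour `k`.
-/

set_option autoImplicit false

namespace FlashRainbow.K

open Classical

variable {c : ℕ → ℕ → ℕ} {V U T : Finset ℕ} {r : ℕ} {f : ℕ → ℕ} {lev : ℕ → ℕ → ℕ}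

/-- a rainbow path of `T` and an edge of a new colour `k` out of its last vertex -/
theorem RS.append {x k : ℕ} {D : Finset ℕ} (h : RS c T x D) (hTV : T ⊆ V) (hk : k ∉ D)
    (hout : ∀ v ∈ T, OutCol c V v k) : RS c V x (insert k D) := by
  induction h with
  | @single x hx =>
    obtain ⟨y, hy, hxy, hcxy⟩ := hout x hx
    have h1 := RS.step (RS.single hy) (hTV hx) hxy (Finset.notMem_empty (c x y))
    rw [hcxy] at h1
    exact h1
  | @step x y D h hx hlt hc ih =>
    rw [Finset.mem_insert, not_or] at hk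
    rw [Finset.insert_comm]
    refine RS.step (ih hk.2) (hTV hx) hlt ?_
    rw [Finset.mem_insert, not_or]
    exact ⟨fun h => hk.1 h.symm, hc⟩

theorem RS.notMem_of_free {γ x : ℕ} {D : Finset ℕ} (h : RS c T x D)
    (hfree : ∀ u ∈ T, ∀ v ∈ T, u < v → c u v ≠ γ) : γ ∉ D := by
  induction h with
  | single _ => simp
  | @step x y D h hx hlt hc ih =>
    rw [Finset.mem_insert, not_or]
    exact ⟨fun h' => hfree x hx y h.mem hlt h'.symm, ih⟩

/-- (2): a `k`-free set of vertices with an out-edge of colour `k` -/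
theorem lab_tail (hV : LAB c V (r + 1) f) {k : ℕ} (hTV : T ⊆ V)
    (hfree : ∀ u ∈ T, ∀ v ∈ T, u < v → c u v ≠ k) (hout : ∀ v ∈ T, OutCol c V v k) :
    LAB c T r f := by
  refine ⟨fun v hv h => hV.notOut v (hTV hv) (h.mono hTV), fun v hv D hD hf => ?_⟩
  have hk : k ∉ D := RS.notMem_of_free hD hfree
  have hfk : f v ≠ k := by
    intro h
    have h1 := hout v hv
    rw [← h] at h1
    exact hV.notOut v (hTV hv) h1
  have h1 := hV.short v (hTV hv) _ (RS.append hD hTV hk hout) (by
    rw [Finset.mem_insert, not_or]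
    exact ⟨hfk, hf⟩)
  rw [Finset.card_insert_of_notMem hk] at h1
  omega

theorem card_tail (hL : Lev c V 3 lev) (hV : LAB c V (r + 1) f) (N : ℕ)
    (hN : ∀ U ⊆ V, ∀ f', LAB c U r f' → U.card ≤ N) (k : ℕ) : (Tl c V k).card ≤ 2 * N := by
  have hmaps : ∀ v ∈ Tl c V k, lev k v ∈ Finset.range 2 := by
    intro v hv
    obtain ⟨hvV, w, hw, hvw, hc⟩ := Finset.mem_filter.mp hv
    have h1 := hL.up v hvV w hw hvw
    rw [hc] at h1
    have h2 := hL.lt k w hw
    rw [Finset.mem_range]
    omega
  rw [Finset.card_eq_sum_card_fiberwise hmaps]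
  calc ∑ b ∈ Finset.range 2, ((Tl c V k).filter fun v => lev k v = b).card
      ≤ ∑ b ∈ Finset.range 2, N := by
        refine Finset.sum_le_sum fun b _ => ?_
        have hsub : ((Tl c V k).filter fun v => lev k v = b) ⊆ V :=
          (Finset.filter_subset _ _).trans (Finset.filter_subset _ _)
        refine hN _ hsub f (lab_tail (k := k) hV hsub ?_ ?_)
        · intro u hu v hv huv hc
          have h1 := hL.up u (hsub hu) v (hsub hv) huv
          rw [hc, (Finset.mem_filter.mp hu).2, (Finset.mem_filter.mp hv).2] at h1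
          omega
        · intro v hv
          exact (Finset.mem_filter.mp (Finset.mem_filter.mp hv).1).2
    _ = 2 * N := by rw [Finset.sum_const, Finset.card_range, smul_eq_mul]

/-- (3): the good vertices -/
theorem lab_good (k : ℕ) : ∃ f', LAB c ((W c V k).filter fun v => Good c V (r + 1) k v) r f' := by
  set G := (W c V k).filter fun v => Good c V (r + 1) k v with hG
  have hGW : G ⊆ W c V k := Finset.filter_subset _ _
  have hex : ∀ v ∈ G, ∃ g, ¬ OutCol c (W c V k) v g ∧
      ∀ D, RS c (W c V k) v D → g ∉ D → D.card + 2 ≤ r + 1 :=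
    fun v hv => (Finset.mem_filter.mp hv).2
  choose! f' hf' using hex
  refine ⟨f', ⟨fun v hv h => (hf' v hv).1 (h.mono hGW), fun v hv D hD hf => ?_⟩⟩
  have h1 := (hf' v hv).2 D (RS.mono hD hGW) hf
  omega

/-- **The exact recursion**: `|V| ≤ 3 N + |Bad k|` for every colour `k`. -/
theorem lab_step (hL : Lev c V 3 lev) (hV : LAB c V (r + 1) f) (N : ℕ)
    (hN : ∀ U ⊆ V, ∀ f', LAB c U r f' → U.card ≤ N) (k : ℕ) :
    V.card ≤ 3 * N + (Bad c V (r + 1) k).card := by
  have h1 := card_tail hL hV N hN k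
  obtain ⟨f', hf'⟩ := lab_good (c := c) (V := V) (r := r) k
  have h2 : ((W c V k).filter fun v => Good c V (r + 1) k v).card ≤ N :=
    hN _ ((Finset.filter_subset _ _).trans (Finset.filter_subset _ _)) f' hf'
  have h3 : (Tl c V k).card + (W c V k).card = V.card :=
    Finset.card_filter_add_card_filter_not _
  have h4 : ((W c V k).filter fun v => Good c V (r + 1) k v).card + (Bad c V (r + 1) k).card =
      (W c V k).card := Finset.card_filter_add_card_filter_not _
  omega

/-- the recursion for all subsets -/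
theorem lab_step_all (hL : Lev c V 3 lev) : ∀ U ⊆ V, ∀ r f, LAB c U (r + 1) f → ∀ N : ℕ,
    (∀ U' ⊆ U, ∀ f', LAB c U' r f' → U'.card ≤ N) →
      ∀ k, U.card ≤ 3 * N + (Bad c U (r + 1) k).card :=
  fun _ hU _ _ hf N hN k => lab_step (hL.mono hU) hf N hN k

end FlashRainbow.K
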